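import Mathlib

/-!
The choice of the parameters in the asymptotic statements.
-/

set_option linter.unusedSectionVars false

namespace Pool.Agent.W964.Wd

open Finset Filter

/-- The choice of the parameters. -/
theorem asym (δ : ℝ) (hδ : 0 < δ) (hδ2 : δ < 2) : ∃ ε : ℝ, 0 < ε ∧
    ∀ C : ℝ, 0 < C → ∀ T : ℕ → ℕ, (∀ n, 1 ≤ T n) →
    (fun n : ℕ => (T n : ℝ) * Real.log n) =o[atTop] (fun n : ℕ => (n : ℝ)) →
    ∃ w : ℕ → ℕ, (∃ C' : ℝ, ∀ n, 2 ≤ n → (w n : ℝ) ≤ C' * (T n * Real.log n) ∧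
        ((n * 2 ^ w n : ℕ) : ℝ) ≤ (n : ℝ) ^ (C' * T n)) ∧
      ∀ c e : ℕ, ∀ᶠ n : ℕ in atTop, 2 ≤ n ∧ C * (T n * Real.log n) ≤ w n ∧ w n ≤ n ∧
        (2 - δ) ^ n * (c * ((n * 2 ^ w n : ℕ) : ℝ) ^ e) ≤ (2 : ℝ) ^ ((1 - ε) * n) ∧
        c * ((n * 2 ^ w n : ℕ) : ℝ) ^ e ≤ (2 : ℝ) ^ ((1 / 8 : ℝ) * n) ∧
        (2 : ℝ) ^ (-((w n : ℝ) / C)) ≤ 1 / 16 := by
  obtain ⟨β, hβ⟩ : ∃ β : ℝ, β = Real.logb 2 (2 - δ) := ⟨_, rfl⟩
  have hβ1 : β < 1 := by
    rw [hβ, Real.logb_lt_iff_lt_rpow (by norm_num) (by linarith), Real.rpow_one]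
    linarith
  have hβ2 : (2 - δ) = 2 ^ β := by
    rw [hβ, Real.rpow_logb (by norm_num) (by norm_num) (by linarith)]
  obtain ⟨ε, hε⟩ : ∃ ε : ℝ, ε = (1 - β) / 2 := ⟨_, rfl⟩
  have hε0 : 0 < ε := by rw [hε]; linarith
  refine ⟨ε, hε0, ?_⟩
  intro C hC T hT hTo
  obtain ⟨w, hw⟩ : ∃ w : ℕ → ℕ, w = fun n => ⌈C * (T n * Real.log n)⌉₊ := ⟨_, rfl⟩
  have hwge : ∀ n, C * (T n * Real.log n) ≤ w n := by
    intro n; rw [hw]; exact Nat.le_ceil _
  have hlogn : Tendsto (fun n : ℕ => Real.log (n : ℝ)) atTop atTop :=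
    Real.tendsto_log_atTop.comp tendsto_natCast_atTop_atTop
  have hnt : Tendsto (fun n : ℕ => (n : ℝ)) atTop atTop := tendsto_natCast_atTop_atTop
  -- bounds for `w n` and for the number of clauses
  have hl2 : (1 : ℝ) / 2 ≤ Real.log 2 := by
    have := Real.log_two_gt_d9
    linarith
  have hl2' : Real.log 2 ≤ 1 := by
    have := Real.log_two_lt_d9
    linarith
  have hwle : ∀ n : ℕ, 2 ≤ n → (w n : ℝ) ≤ (C + 2) * (T n * Real.log n) := by
    intro n hn
    have hnR : (2 : ℝ) ≤ n := by exact_mod_cast hn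
    have hTR : (1 : ℝ) ≤ T n := by exact_mod_cast hT n
    have hlog : 1 / 2 ≤ Real.log n := hl2.trans (Real.log_le_log (by norm_num) hnR)
    have h1 : (w n : ℝ) ≤ C * (T n * Real.log n) + 1 := by
      rw [congrFun hw n]
      exact (Nat.ceil_lt_add_one (by positivity)).le
    have h2 : 1 * (1 / 2) ≤ (T n : ℝ) * Real.log n :=
      mul_le_mul hTR hlog (by norm_num) (by linarith)
    linarith
  have hMle : ∀ n : ℕ, 2 ≤ n → ((n * 2 ^ w n : ℕ) : ℝ) ≤ (n : ℝ) ^ ((C + 3) * T n) := by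
    intro n hn
    have hnR : (2 : ℝ) ≤ n := by exact_mod_cast hn
    have hn0 : (0 : ℝ) < n := by linarith
    have hTR : (1 : ℝ) ≤ T n := by exact_mod_cast hT n
    have hlog : 0 ≤ Real.log n := Real.log_nonneg (by linarith)
    have h1 := hwle n hn
    push_cast
    rw [← Real.rpow_natCast, Real.rpow_def_of_pos (by norm_num : (0 : ℝ) < 2),
      Real.rpow_def_of_pos hn0]
    nth_rewrite 1 [← Real.exp_log hn0]
    rw [← Real.exp_add]
    apply Real.exp_le_exp.2
    calc Real.log n + Real.log 2 * (w n : ℝ) ≤ Real.log n + 1 * (w n : ℝ) := by gcongr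
      _ ≤ Real.log n + 1 * ((C + 2) * (T n * Real.log n)) := by gcongr
      _ ≤ T n * Real.log n + 1 * ((C + 2) * (T n * Real.log n)) := by
          have : 1 * Real.log n ≤ T n * Real.log n := mul_le_mul_of_nonneg_right hTR hlog
          linarith
      _ = Real.log n * ((C + 3) * T n) := by ring
  refine ⟨w, ⟨C + 3, fun n hn => ⟨?_, hMle n hn⟩⟩, ?_⟩
  · refine (hwle n hn).trans ?_
    have hnR : (2 : ℝ) ≤ n := by exact_mod_cast hn
    have hlog : 0 ≤ (T n : ℝ) * Real.log n := by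
      have := Real.log_nonneg (by linarith : (1 : ℝ) ≤ n)
      positivity
    linarith
  · intro c e
    have hE : (fun n : ℕ => (c : ℝ) + 2 * e * ((C + 3) * (T n * Real.log n)))
        =o[atTop] (fun n : ℕ => (n : ℝ)) := by
      have hconst : (fun _ : ℕ => (c : ℝ)) =o[atTop] (fun n : ℕ => (n : ℝ)) :=
        Asymptotics.isLittleO_const_left.2 (Or.inr (tendsto_norm_atTop_atTop.comp hnt))
      have h1 : (fun n : ℕ => (c : ℝ) + 2 * e * ((C + 3) * (T n * Real.log n))) =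
          fun n : ℕ => (c : ℝ) + (2 * e * (C + 3)) * (T n * Real.log n) := by
        funext n; ring
      rw [h1]
      exact hconst.add (hTo.const_mul_left _)
    have hW : (fun n : ℕ => (C + 2) * (T n * Real.log n)) =o[atTop] (fun n : ℕ => (n : ℝ)) :=
      hTo.const_mul_left _
    filter_upwards [hE.bound hε0, hW.bound (zero_lt_one), hlogn.eventually
      (eventually_ge_atTop 4), eventually_ge_atTop 2,
      hE.bound (by norm_num : (0 : ℝ) < 1 / 8)] with n h1 h2 h4 h5 h18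
    have hnR : (2 : ℝ) ≤ n := by exact_mod_cast h5
    have hn0 : (0 : ℝ) < n := by linarith
    have hTR : (1 : ℝ) ≤ T n := by exact_mod_cast hT n
    have hTL : 0 ≤ (T n : ℝ) * Real.log n := by positivity
    rw [Real.norm_of_nonneg (by positivity), Real.norm_of_nonneg (by linarith)] at h1 h2 h18
    have hwn : w n ≤ n := by
      have : (w n : ℝ) ≤ n := (hwle n h5).trans (by linarith)
      exact_mod_cast this
    have hMle' : ((n * 2 ^ w n : ℕ) : ℝ) ≤ 2 ^ (2 * ((C + 3) * (T n * Real.log n))) := by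
      refine (hMle n h5).trans ?_
      rw [Real.rpow_def_of_pos (by norm_num : (0 : ℝ) < 2), Real.rpow_def_of_pos hn0]
      apply Real.exp_le_exp.2
      have h6 : 0 ≤ (C + 3) * ((T n : ℝ) * Real.log n) := by positivity
      have h7 : (1 / 2) * (2 * ((C + 3) * ((T n : ℝ) * Real.log n))) ≤
          Real.log 2 * (2 * ((C + 3) * (T n * Real.log n))) :=
        mul_le_mul_of_nonneg_right hl2 (by positivity)
      calc Real.log n * ((C + 3) * T n) = (1 / 2) * (2 * ((C + 3) * (T n * Real.log n))) := by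
            ring
        _ ≤ _ := h7
    have hc : (c : ℝ) ≤ 2 ^ (c : ℝ) := by
      rw [Real.rpow_natCast]
      exact_mod_cast Nat.lt_two_pow_self.le
    have hpoly : (c * ((n * 2 ^ w n : ℕ) : ℝ) ^ e) ≤
        2 ^ ((c : ℝ) + 2 * e * ((C + 3) * (T n * Real.log n))) := by
      calc (c * ((n * 2 ^ w n : ℕ) : ℝ) ^ e) ≤ (2 ^ (c : ℝ) *
            (2 ^ (2 * ((C + 3) * (T n * Real.log n)))) ^ e) := by gcongr
        _ = _ := by
            rw [← Real.rpow_natCast (2 ^ _ : ℝ) e,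
              ← Real.rpow_mul (by norm_num), ← Real.rpow_add (by norm_num)]
            congr 1
            ring
    refine ⟨h5, hwge n, hwn, ?_, hpoly.trans (Real.rpow_le_rpow_of_exponent_le (by norm_num) h18),
      ?_⟩
    ·
      have hpow : (0 : ℝ) ≤ (2 - δ) ^ n := pow_nonneg (by linarith) n
      calc (2 - δ) ^ n * (c * ((n * 2 ^ w n : ℕ) : ℝ) ^ e)
          ≤ (2 - δ) ^ n * (2 ^ (c : ℝ) *
            (2 ^ (2 * ((C + 3) * (T n * Real.log n)))) ^ e) := by gcongr
        _ = 2 ^ (β * n + ((c : ℝ) + 2 * e * ((C + 3) * (T n * Real.log n)))) := by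
            rw [hβ2, ← Real.rpow_natCast (2 ^ β) n, ← Real.rpow_natCast (2 ^ _ : ℝ) e,
              ← Real.rpow_mul (by norm_num), ← Real.rpow_mul (by norm_num),
              ← Real.rpow_add (by norm_num), ← Real.rpow_add (by norm_num)]
            congr 1
            ring
        _ ≤ 2 ^ (β * n + ε * n) := by
            apply Real.rpow_le_rpow_of_exponent_le (by norm_num)
            linarith
        _ = 2 ^ ((1 - ε) * n) := by
            congr 1
            have h9 : β = 1 - 2 * ε := by rw [hε]; ring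
            rw [h9]; ring
    · have h6 : (2 : ℝ) ^ (-((w n : ℝ) / C)) ≤ 2 ^ (-(4 : ℝ)) := by
        apply Real.rpow_le_rpow_of_exponent_le (by norm_num)
        rw [neg_le_neg_iff, le_div_iff₀ hC]
        have h7 : 1 * 4 ≤ (T n : ℝ) * Real.log n := mul_le_mul hTR h4 (by norm_num) (by linarith)
        have h8 : C * 4 ≤ C * (T n * Real.log n) := mul_le_mul_of_nonneg_left (by linarith) hC.le
        linarith [hwge n]
      have h7 : (2 : ℝ) ^ (-(4 : ℝ)) = 1 / 16 := by
        rw [Real.rpow_neg (by norm_num)]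
        norm_num
      rw [h7] at h6
      exact h6

end Pool.Agent.W964.Wd
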