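import Mathlib
import Pool.Agent.W964.Wd.Count
import Pool.Agent.W964.Pram.First

/-!
Words that are functions of one bit.
-/

set_option linter.unusedSectionVars false

namespace Pool.Agent.W964.Wd

open Finset H568R2 H592R3 Pool.Agent.W964.Pram

/-- `F x` is constant or a function of one bit of `x`. -/
def One {I α : Type} (F : (I → Bool) → α) : Prop :=
  (∃ a, ∀ x, F x = a) ∨ ∃ (i : I) (g : Bool → α), ∀ x, F x = g (x i)

variable {I α : Type} [Fintype I] [DecidableEq I]

lemma One.mt {F : (I → Bool) → α} (hF : One F) : MT 1 F := by
  rcases hF with h | ⟨i, g, h⟩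
  · exact Or.inl h
  · refine Or.inr ⟨i, fun b => ⟨g b, fun x => ?_⟩⟩
    show F (Function.update x i b) = g b
    rw [h, Function.update_self]

lemma One.lowV {F : (I → Bool) → α} (hF : One F) {k : ℕ} {v : Fin k → I}
    (hv : Function.Injective v) (X : I → Bool) : LowV 1 (fun U => F (plant v U X)) := by
  rcases hF with ⟨a, h⟩ | ⟨i, g, h⟩
  · have : (fun U => F (plant v U X)) = fun _ => a := by
      funext U; exact h _
    rw [this]
    exact LowV.mono (LowV.const (k := 0) a) (by omega)
  · have h1 := lowV_one (f := fun x : I → Bool => x i) ⟨{i}, by simp, fun x y hxy => by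
      exact hxy i (Finset.mem_singleton_self i)⟩ hv X
    have h2 := h1.map g
    have : (fun U => F (plant v U X)) = fun U => g ((plant v U X) i) := by
      funext U; exact h _
    rw [this]
    exact h2

end Pool.Agent.W964.Wd
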