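import Mathlib
import Pool.Agent.W964.Wd.Count
import Pool.Agent.W964.Pram.First
import Pool.Agent.W964.Wd.Or.First
import Pool.Agent.W964.Wd.Gen.One

/-!
Many random instances, one of which has a planted solution: the first moment.
-/

set_option linter.unusedSectionVars false

namespace Pool.Agent.W964.Wd

open Finset H568R2 H592R3 Pool.Agent.W964.Pram

open Classical in
/-- The expected number of planted solutions that change the result. -/
theorem gen_moment {mm m n r : ℕ} {W J : Type} {P : ℕ} (s : Fin m → Fin r → Fin m)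
    (M : Machine W J P) (σ : ((Fin mm × (Fin m × (Fin r → Fin n))) → Bool) → (J → W))
    (hσ : ∀ j, One (fun x => σ x j)) {Kl h l T Wm L u : ℕ} (hh : 1 ≤ h)
    (hK : ∀ q, (M.query q).length ≤ Kl) (hm1 : Kl + 2 ≤ 2 ^ l) (hm2 : P + 3 ≤ 2 ^ l)
    (hWm : h + (h * l + (h + T * (h * l))) ≤ Wm) (hL : 2 ≤ L) (hn : 1 ≤ n)
    (hexp : ∀ H : Finset (Fin m), L ≤ H.card → m - (touched s H).card ≤ u)
    {q₀ y q c : ℝ} (hq₀ : 0 < q₀) (hq₀' : q₀ ≤ 1 / 3) (hq : q = (q₀ ^ 3) ^ T)
    (hy0 : 0 < y) (hy1 : y ≤ 1) (hcyq : 2 ≤ c * (y * q)) (hc : 1 ≤ c) {Bs : ℝ}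
    (hBs : ∑ H ∈ univ.filter (fun H : Finset (Fin m) => 1 ≤ H.card ∧ H.card < L),
      c ^ H.card * (((2 * Wm) ^ H.card *
        (H.card ^ H.card * n ^ (m - (touched s H).card)) : ℕ) : ℝ) ≤ Bs) :
    Ex (vp (y / 2)) (fun X : (Fin mm × (Fin m × (Fin r → Fin n))) → Bool =>
      ∑ κ : Fin mm × (Fin m → Fin n),
      if M.result T (σ X) ≠ M.result T (σ (plant (vi s κ) univ X)) then (1 : ℝ) else 0) ≤
    2 ^ m * (c ^ (2 * L) * ((T * P * ((2 * L + 2) * (2 * (Wm : ℝ)) ^ (2 * L))) *
      (2 * (Wm : ℝ)) ^ (2 * L) * ((2 * L) ^ (2 * L) * (n : ℝ) ^ u))) + Bs +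
      (n : ℝ) ^ m * (2 ^ m * c ^ (2 * L)) * (mm *
      (T * (((P * 2 ^ h * (Kl + P + 3) : ℕ) : ℝ) * (12 * (Wm : ℝ) * q₀) ^ (h + 1)))) := by
  have hc0 : 0 ≤ c := by linarith
  have hWm1 : 1 ≤ Wm := by omega
  obtain ⟨G, hG⟩ : ∃ G : Finset (Fin m) → ((Fin mm × (Fin m × (Fin r → Fin n))) → Bool) →
      Fin mm × (Fin m → Fin n) → ℝ, G = fun H X κ =>
    if ∃ F, Fvi M Kl T L H.card F ∧ mb (fun U => F (σ (plant (vi s κ) U X))) H ≠ 0
      then (1 : ℝ) else 0 := ⟨_, rfl⟩
  have hG0 : ∀ H X κ, 0 ≤ G H X κ := by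
    intro H X κ; rw [hG]; dsimp only; split_ifs <;> norm_num
  obtain ⟨S, hS⟩ : ∃ S : Finset (Finset (Fin m)), S = univ.filter (fun H : Finset (Fin m) =>
    1 ≤ H.card ∧ H.card ≤ 2 * (L - 1)) := ⟨_, rfl⟩
  have hvp : ∀ b, 0 ≤ vp (y / 2) b := vp_nonneg (by linarith) (by linarith)
  -- the cover
  have h1 : ∀ X, (∑ κ : Fin mm × (Fin m → Fin n),
      if M.result T (σ X) ≠ M.result T (σ (plant (vi s κ) univ X)) then (1 : ℝ) else 0) ≤
      ∑ H ∈ S, ∑ κ, G H X κ := by
    intro X
    rw [Finset.sum_comm]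
    refine Finset.sum_le_sum fun κ _ => ?_
    by_cases hne : M.result T (σ X) ≠ M.result T (σ (plant (vi s κ) univ X))
    · rw [if_pos hne]
      have e0 : plant (vi s κ) (∅ : Finset (Fin m)) X = X := by
        funext i
        unfold plant
        simp
      obtain ⟨H, F, hF, hmb⟩ := cover M (T := T) hK hL
        (fun U => σ (plant (vi s κ) U X))
        (fun j => (hσ j).lowV (vi_inj s κ) X) (by
          show M.result T (σ (plant (vi s κ) univ X)) ≠
            M.result T (σ (plant (vi s κ) ∅ X))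
          rw [e0]
          exact Ne.symm hne)
      have hHs : H ∈ S := by
        rw [hS, Finset.mem_filter]
        refine ⟨Finset.mem_univ _, ?_⟩
        rcases hF with ⟨h1, h2, _⟩ | ⟨h1, h2, _⟩
        · omega
        · omega
      refine le_trans ?_ (Finset.single_le_sum (fun H _ => hG0 H X κ) hHs)
      rw [hG]
      dsimp only
      rw [if_pos ⟨F, hF, hmb⟩]
    · rw [if_neg hne]
      exact Finset.sum_nonneg fun H _ => hG0 H X κ
  refine (Ex_mono hvp h1).trans ?_
  rw [Ex_sum]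
  -- one set
  have h2 : ∀ H ∈ S, Ex (vp (y / 2)) (fun X => ∑ κ, G H X κ) ≤
      c ^ H.card * ((Nb T P Wm L H.card * (H.card ^ H.card *
        n ^ (m - (touched s H).card)) : ℕ) : ℝ) +
      (n : ℝ) ^ m * c ^ (2 * L) * (mm * Fl T P h Kl Wm q₀) := by
    intro H hH
    rw [hS, Finset.mem_filter] at hH
    obtain ⟨_, hH1, hH2⟩ := hH
    have h3 := mach_weighted M σ (fun j => (hσ j).mt) (vi s)
      (vi_inj s) H (Kl := Kl) (h := h) (l := l) (T := T) (Wm := Wm) (L := L)
      (B := H.card ^ H.card * n ^ (m - (touched s H).card)) hh hK hm1 hm2 hWm hL hH1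
      (fun V => vi_count s H hH1 V) (y := y) hq₀ hq₀' hq hy0 hy1 hcyq hc (fun _ => 1)
      (fun _ => zero_le_one) (B0 := 1) (fun _ => le_rfl)
    simp only [one_mul] at h3
    rw [Ex_const (vp_sum (y / 2)), mul_one] at h3
    rw [hG]
    refine h3.trans ?_
    apply add_le_add le_rfl
    rw [Fintype.card_prod, Fintype.card_fun, Fintype.card_fin, Fintype.card_fin, Fintype.card_fin]
    push_cast
    have h4 : c ^ H.card ≤ c ^ (2 * L) := pow_le_pow_right₀ hc (by omega)
    have h5 : 0 ≤ Fl T P h Kl Wm q₀ := by unfold Fl; positivity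
    calc (mm : ℝ) * (n : ℝ) ^ m * c ^ H.card * Fl T P h Kl Wm q₀ =
        c ^ H.card * ((mm : ℝ) * (n : ℝ) ^ m * Fl T P h Kl Wm q₀) := by ring
      _ ≤ c ^ (2 * L) * ((mm : ℝ) * (n : ℝ) ^ m * Fl T P h Kl Wm q₀) :=
          mul_le_mul_of_nonneg_right h4 (by positivity)
      _ = _ := by ring
  refine (Finset.sum_le_sum h2).trans ?_
  rw [Finset.sum_add_distrib]
  apply add_le_add
  · rw [← Finset.sum_filter_add_sum_filter_not S (fun H => H.card < L), add_comm]
    apply add_le_add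
    · have h3 : ∀ H ∈ S.filter (fun H => ¬ H.card < L), c ^ H.card *
          ((Nb T P Wm L H.card * (H.card ^ H.card * n ^ (m - (touched s H).card)) : ℕ) : ℝ) ≤
          c ^ (2 * L) * ((T * P * ((2 * L + 2) * (2 * (Wm : ℝ)) ^ (2 * L))) *
          (2 * (Wm : ℝ)) ^ (2 * L) * ((2 * L) ^ (2 * L) * (n : ℝ) ^ u)) := by
        intro H hH
        rw [Finset.mem_filter, hS, Finset.mem_filter] at hH
        obtain ⟨⟨_, h3, h4⟩, h5⟩ := hH
        have h6 := hexp H (by omega)
        have h7 : Nb T P Wm L H.card * (H.card ^ H.card * n ^ (m - (touched s H).card)) ≤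
            ((T * P) * ((2 * L + 2) * (2 * Wm) ^ (2 * L))) * (2 * Wm) ^ (2 * L) *
              ((2 * L) ^ (2 * L) * n ^ u) := by
          unfold Nb
          rw [if_neg h5]
          have h8 : (2 * Wm) ^ H.card ≤ (2 * Wm) ^ (2 * L) :=
            Nat.pow_le_pow_right (by omega) (by omega)
          have h9 : H.card ^ H.card ≤ (2 * L) ^ (2 * L) :=
            (Nat.pow_le_pow_left (by omega) _).trans
              (Nat.pow_le_pow_right (by omega) (by omega))
          have h10 : n ^ (m - (touched s H).card) ≤ n ^ u := Nat.pow_le_pow_right hn h6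
          have h11 : (T * P) * ((H.card + 2) * ((2 * Wm) ^ H.card * (2 * Wm) ^ H.card)) ≤
              ((T * P) * ((2 * L + 2) * (2 * Wm) ^ (2 * L))) * (2 * Wm) ^ (2 * L) := by
            calc (T * P) * ((H.card + 2) * ((2 * Wm) ^ H.card * (2 * Wm) ^ H.card))
                ≤ (T * P) * ((2 * L + 2) * ((2 * Wm) ^ (2 * L) * (2 * Wm) ^ (2 * L))) := by
                  apply Nat.mul_le_mul_left
                  exact Nat.mul_le_mul (by omega) (Nat.mul_le_mul h8 h8)
              _ = _ := by ring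
          exact Nat.mul_le_mul h11 (Nat.mul_le_mul h9 h10)
        have h8 : ((Nb T P Wm L H.card * (H.card ^ H.card * n ^ (m - (touched s H).card)) :
            ℕ) : ℝ) ≤ (T * P * ((2 * L + 2) * (2 * (Wm : ℝ)) ^ (2 * L))) *
          (2 * (Wm : ℝ)) ^ (2 * L) * ((2 * L) ^ (2 * L) * (n : ℝ) ^ u) := by exact_mod_cast h7
        exact mul_le_mul (pow_le_pow_right₀ hc (by omega)) h8 (by positivity) (by positivity)
      refine (Finset.sum_le_card_nsmul _ _ _ h3).trans ?_
      rw [nsmul_eq_mul]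
      apply mul_le_mul_of_nonneg_right _ (by positivity)
      have h4 : (S.filter (fun H => ¬ H.card < L)).card ≤ 2 ^ m := by
        refine (Finset.card_le_univ _).trans ?_
        rw [Fintype.card_finset, Fintype.card_fin]
      exact_mod_cast h4
    · refine le_trans (le_of_eq ?_) hBs
      rw [hS, Finset.filter_filter]
      have h3 : (univ.filter (fun H : Finset (Fin m) => (1 ≤ H.card ∧ H.card ≤ 2 * (L - 1)) ∧
          H.card < L)) = univ.filter (fun H : Finset (Fin m) => 1 ≤ H.card ∧ H.card < L) := by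
        ext H
        simp only [Finset.mem_filter, Finset.mem_univ, true_and]
        omega
      rw [h3]
      refine Finset.sum_congr rfl fun H hH => ?_
      rw [Finset.mem_filter] at hH
      unfold Nb
      rw [if_pos hH.2.2]
  · rw [Finset.sum_const, nsmul_eq_mul]
    have h4 : (S.card : ℝ) ≤ 2 ^ m := by
      have : S.card ≤ 2 ^ m := by
        refine (Finset.card_le_univ _).trans ?_
        rw [Fintype.card_finset, Fintype.card_fin]
      exact_mod_cast this
    have h5 : 0 ≤ Fl T P h Kl Wm q₀ := by unfold Fl; positivity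
    calc (S.card : ℝ) * ((n : ℝ) ^ m * c ^ (2 * L) * (mm * Fl T P h Kl Wm q₀)) ≤
        2 ^ m * ((n : ℝ) ^ m * c ^ (2 * L) * (mm * Fl T P h Kl Wm q₀)) :=
          mul_le_mul_of_nonneg_right h4 (by positivity)
      _ = _ := by unfold Fl; ring

end Pool.Agent.W964.Wd
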