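import Mathlib
import Pool.Agent.W964.Wd.Gen.Hard
import Pool.Agent.W964.Wd.Or.Main

/-!
Randomized parallel machines fail on some encoding of a random or random planted instance.
-/

set_option linter.unusedSectionVars false

namespace Pool.Agent.W964.Wd

open Finset H568R2 H592R3 Pool.Agent.W964.Pram

open Classical in
/-- One function on a random instance and on a random planted instance. -/
lemma abs_core {m r N : ℕ} {V : Type} (hN : 1 ≤ N)
    (s : Fin m → Fin r → Fin m) {p : ℝ} (hp0 : 0 ≤ p) (hp1 : p ≤ 1)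
    (out : ((Fin 1 × (Fin m × (Fin r → Fin N))) → Bool) → V) (acc : V → Prop) {B : ℝ}
    (hB : Ex (vp p) (fun X => ∑ κ : Fin 1 × (Fin m → Fin N),
      if out X ≠ out (plant (vi s κ) univ X) then (1 : ℝ) else 0) ≤ B) :
    ∑ y : (((Fin 1 × (Fin m × (Fin r → Fin N))) → Bool) × (Fin 1 × (Fin m → Fin N))) × Bool,
      ((∏ i, vp p (y.1.1 i)) * (1 / (N : ℝ) ^ m) * (1 / 2)) *
      (if (acc (out (if y.2 = true then plant (vi s y.1.2) univ y.1.1 else y.1.1)) ↔
        Sat s (fun v => (if y.2 = true then plant (vi s y.1.2) univ y.1.1 else y.1.1) (0, v)))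
        then (1 : ℝ) else 0) ≤
      1 / 2 + ((N : ℝ) ^ m * p ^ m + B / (N : ℝ) ^ m) / 2 := by
  have hN0 : (0 : ℝ) < N := by exact_mod_cast hN
  have hNp : (0 : ℝ) < (N : ℝ) ^ m := by positivity
  have hμ : ∀ X : (Fin 1 × (Fin m × (Fin r → Fin N))) → Bool,
      0 ≤ ∏ i, vp p (X i) := fun X => Finset.prod_nonneg fun i _ => vp_nonneg hp0 hp1 _
  have hpt : ∀ (X : (Fin 1 × (Fin m × (Fin r → Fin N))) → Bool)
      (κ : Fin 1 × (Fin m → Fin N)),
      (if (acc (out (plant (vi s κ) univ X)) ↔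
        Sat s (fun v => plant (vi s κ) univ X (0, v))) then (1 : ℝ) else 0) +
      (if (acc (out X) ↔ Sat s (fun v => X (0, v))) then (1 : ℝ) else 0) ≤
      1 + (if ∃ i : Fin 1, Sat s (fun v => X (i, v)) then (1 : ℝ) else 0) +
        ∑ _u : Fin 1, if out X ≠ out (plant (vi s κ) univ X) then (1 : ℝ) else 0 := by
    intro X κ
    rw [Finset.sum_const, Finset.card_univ, Fintype.card_fin, one_smul]
    have h1 : Sat s (fun v => plant (vi s κ) univ X (0, v)) := by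
      have h := multi_plant s κ X
      have h0 : κ.1 = 0 := Subsingleton.elim _ _
      rwa [h0] at h
    have h4 : (if (acc (out (plant (vi s κ) univ X)) ↔
        Sat s (fun v => plant (vi s κ) univ X (0, v))) then (1 : ℝ) else 0) ≤ 1 := by
      split_ifs <;> norm_num
    have h5 : (if (acc (out X) ↔ Sat s (fun v => X (0, v))) then (1 : ℝ) else 0) ≤ 1 := by
      split_ifs <;> norm_num
    by_cases hd : out X ≠ out (plant (vi s κ) univ X)
    · rw [if_pos hd]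
      have h6 : (0 : ℝ) ≤ (if ∃ i : Fin 1, Sat s (fun v => X (i, v)) then (1 : ℝ) else 0) := by
        split_ifs <;> norm_num
      linarith
    · rw [if_neg hd]
      push Not at hd
      by_cases hs : ∃ i : Fin 1, Sat s (fun v => X (i, v))
      · rw [if_pos hs]
        linarith
      · rw [if_neg hs]
        have h7 : ¬ Sat s (fun v => X (0, v)) := fun h => hs ⟨0, h⟩
        by_cases hD : acc (out X)
        · have h8 : ¬ (acc (out X) ↔ Sat s (fun v => X (0, v))) := fun h => h7 (h.1 hD)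
          rw [if_neg h8]
          linarith
        · have h8 : ¬ (acc (out (plant (vi s κ) univ X)) ↔
              Sat s (fun v => plant (vi s κ) univ X (0, v))) := fun h => by
            apply hD
            rw [hd]
            exact h.2 h1
          rw [if_neg h8]
          linarith
  rw [Fintype.sum_prod_type]
  have h1 : ∀ Xκ : ((Fin 1 × (Fin m × (Fin r → Fin N))) → Bool) × (Fin 1 × (Fin m → Fin N)),
      ∑ y : Bool, ((∏ i, vp p (Xκ.1 i)) * (1 / (N : ℝ) ^ m) * (1 / 2)) *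
      (if (acc (out (if y = true then plant (vi s Xκ.2) univ Xκ.1 else Xκ.1)) ↔
        Sat s (fun v => (if y = true then plant (vi s Xκ.2) univ Xκ.1 else Xκ.1) (0, v)))
        then (1 : ℝ) else 0) ≤
      ((∏ i, vp p (Xκ.1 i)) * (1 / (N : ℝ) ^ m) * (1 / 2)) *
        (1 + (if ∃ i : Fin 1, Sat s (fun v => Xκ.1 (i, v)) then (1 : ℝ) else 0) +
        ∑ _u : Fin 1, if out Xκ.1 ≠ out (plant (vi s Xκ.2) univ Xκ.1) then (1 : ℝ) else 0) := by
    intro Xκ
    rw [Fintype.sum_bool, ← mul_add]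
    refine mul_le_mul_of_nonneg_left ?_ (mul_nonneg (mul_nonneg (hμ _) (by positivity))
      (by norm_num))
    have := hpt Xκ.1 Xκ.2
    simpa using this
  refine (Finset.sum_le_sum fun Xκ _ => h1 Xκ).trans ?_
  rw [Fintype.sum_prod_type]
  have hcard : ∑ _κ : Fin 1 × (Fin m → Fin N), (1 / (N : ℝ) ^ m) = 1 := by
    rw [Finset.sum_const, Finset.card_univ, Fintype.card_prod, Fintype.card_fun, Fintype.card_fin,
      Fintype.card_fin, Fintype.card_fin, nsmul_eq_mul, one_mul]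
    push_cast
    field_simp
  refine le_trans (le_of_eq (split_sum (A := (Fin 1 × (Fin m × (Fin r → Fin N))) → Bool)
      (fun X => ∏ i, vp p (X i)) _ hcard
      (fun X => if ∃ i : Fin 1, Sat s (fun v => X (i, v)) then (1 : ℝ) else 0)
      (fun (_u : Fin 1) (κ : Fin 1 × (Fin m → Fin N)) X =>
        if out X ≠ out (plant (vi s κ) univ X) then (1 : ℝ) else 0))) ?_
  have e1 : ∑ X : (Fin 1 × (Fin m × (Fin r → Fin N))) → Bool, (∏ i, vp p (X i)) * 1 = 1 := by
    have := Ex_const (I := Fin 1 × (Fin m × (Fin r → Fin N))) (vp_sum p) (1 : ℝ)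
    exact this
  have h3 := multi_prob (mm := 1) s (N := N) hp0 hp1
  unfold Ex at h3 hB
  rw [e1]
  have h4 : (1 : ℝ) / (N : ℝ) ^ m * ∑ _u : Fin 1, ∑ X : (Fin 1 × (Fin m × (Fin r → Fin N))) → Bool,
      (∏ i, vp p (X i)) * ∑ κ : Fin 1 × (Fin m → Fin N),
        (if out X ≠ out (plant (vi s κ) univ X) then (1 : ℝ) else 0) ≤ B / (N : ℝ) ^ m := by
    rw [Finset.sum_const, Finset.card_univ, Fintype.card_fin, one_smul, one_div_mul_eq_div]
    exact div_le_div_of_nonneg_right hB hNp.le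
  have h5 : ((1 : ℕ) : ℝ) * ((N : ℝ) ^ m * p ^ m) = (N : ℝ) ^ m * p ^ m := by
    push_cast; ring
  rw [h5] at h3
  linarith

open Classical in
/-- Every randomized machine fails on some encoded instance. -/
theorem gen_rand (ε : ℝ) (hε : 0 < ε) (K : ℕ) :
    ∃ Q : ℕ, 6 ≤ Q ∧ ∃ C : ℝ, 0 < C ∧
    ∀ n T w : ℕ, 2 ≤ n → 1 ≤ T → C * (T * Real.log n) ≤ w → w ≤ n →
    ∃ b m' : ℕ, 1 ≤ b ∧ 2 ≤ m' ∧ ar Q * (2 * (3 * T) * b) + 1 ≤ w ∧
      Q * m' * (2 * (3 * T) * b + 1) ≤ n ∧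
      ∃ s : Fin (Q * m') → Fin (ar Q) → Fin (Q * m'), (∀ i, s i 0 = i) ∧
      ∀ (W J : Type) (σ : (Vr Q T b m' → Bool) → (J → W)), (∀ j, One (fun x => σ x j)) →
      ∀ (P : ℕ) (R : RandMachine W J P), (P : ℝ) ≤ 2 ^ ((1 - ε) * n) → R.Lists (2 ^ (K * n)) →
        ∃ X : Vr Q T b m' → Bool,
          R.success T (σ X) (Sat s X) ≤ 1 / 2 + (2 : ℝ) ^ (-((w : ℝ) / C)) := by
  obtain ⟨ε', hε'⟩ : ∃ ε' : ℝ, ε' = min ε (1 / 2) := ⟨_, rfl⟩
  have hε0 : 0 < ε' := by rw [hε']; exact lt_min hε (by norm_num)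
  have hε1 : ε' ≤ 1 / 2 := by rw [hε']; exact min_le_right _ _
  have hε2 : ε' ≤ ε := by rw [hε']; exact min_le_left _ _
  obtain ⟨Q, hQ6, C', hC', hpar⟩ := gen_hard ε' hε0 hε1 K
  obtain ⟨C, hC⟩ : ∃ C : ℝ, C = C' + 16 * (2 * Q ^ 2 + 14 + 1) := ⟨_, rfl⟩
  have hQR : (6 : ℝ) ≤ Q := by exact_mod_cast hQ6
  have hC0 : 0 < C := by rw [hC]; positivity
  have hC8 : 8 ≤ C := by
    rw [hC]
    nlinarith
  refine ⟨Q, hQ6, C, hC0, ?_⟩
  intro n T w hn hT hw hwn
  have hnR : (2 : ℝ) ≤ n := by exact_mod_cast hn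
  have hlogn : 0 ≤ Real.log n := Real.log_nonneg (by linarith)
  obtain ⟨b, m', hb, hm', hB2, hBw, hQn, hexp, hwb, s, hs, hMach⟩ := hpar n T w hn hT (by
    refine le_trans ?_ hw
    apply mul_le_mul_of_nonneg_right _ (by positivity)
    rw [hC]
    have : (0 : ℝ) ≤ 16 * (2 * Q ^ 2 + 14 + 1) := by positivity
    linarith) hwn
  refine ⟨b, m', hb, hm', hBw, hQn, s, hs, ?_⟩
  intro W J σ hσ P R hP hR
  obtain ⟨σ', hσ'⟩ : ∃ σ' : (Fin 1 × Vr Q T b m' → Bool) → (J → W),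
      σ' = fun X => σ (fun v => X (0, v)) := ⟨_, rfl⟩
  have hσj : ∀ j, One (fun x => σ' x j) := by
    intro j
    rw [hσ']
    rcases hσ j with ⟨a, h⟩ | ⟨i, g, h⟩
    · exact Or.inl ⟨a, fun x => h _⟩
    · exact Or.inr ⟨(0, i), g, fun x => h _⟩
  obtain ⟨p, hp⟩ : ∃ p : ℝ, p = Pram.dens T b := ⟨_, rfl⟩
  have hp0 : 0 ≤ p := by rw [hp]; unfold Pram.dens; positivity
  have hp1 : p ≤ 1 := by
    have h1 : (1 : ℝ) ≤ ((2 : ℝ) ^ (3 * T * b)) ^ 3 := one_le_pow₀ (one_le_pow₀ (by norm_num))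
    have h2 : 1 / ((2 : ℝ) ^ (3 * T * b)) ^ 3 ≤ 1 := by
      rw [div_le_one (by positivity)]; exact h1
    rw [hp]
    unfold Pram.dens
    linarith
  have hP' : (P : ℝ) ≤ 2 ^ ((1 - ε') * n) := by
    refine hP.trans ?_
    apply Real.rpow_le_rpow_of_exponent_le (by norm_num)
    nlinarith
  rw [← hp] at hMach
  have hNN : 1 ≤ dom T b := by unfold dom; exact Nat.one_le_two_pow
  obtain ⟨B, hB⟩ : ∃ B : ℝ, B = 3 * (((dom T b : ℕ) : ℝ) ^ (Q * m') / 2 ^ (3 * T * b)) :=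
    ⟨_, rfl⟩
  have hNp : (0 : ℝ) < (((dom T b : ℕ) : ℝ)) ^ (Q * m') := by unfold dom; positivity
  -- the bound for one machine
  have hcore : ∀ ω, ∑ y : ((Fin 1 × Vr Q T b m' → Bool) ×
      (Fin 1 × (Fin (Q * m') → Fin (dom T b)))) × Bool,
      ((∏ i, vp p (y.1.1 i)) * (1 / ((dom T b : ℕ) : ℝ) ^ (Q * m')) * (1 / 2)) *
      (if (((R.mach ω).answer T
          (σ' (if y.2 = true then plant (vi s y.1.2) univ y.1.1 else y.1.1)) = true) ↔
        Sat s (fun v => (if y.2 = true then plant (vi s y.1.2) univ y.1.1 else y.1.1) (0, v)))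
        then (1 : ℝ) else 0) ≤
      1 / 2 + (((dom T b : ℕ) : ℝ) ^ (Q * m') * p ^ (Q * m') +
        B / ((dom T b : ℕ) : ℝ) ^ (Q * m')) / 2 := by
    intro ω
    have h1 := hMach 1 le_rfl Nat.one_le_two_pow W J σ' hσj P (R.mach ω) hP' (hR ω)
    have h2 := abs_core (N := dom T b) hNN s hp0 hp1 (fun X => (R.mach ω).result T (σ' X))
      (fun v => (R.mach ω).accept v = true) (B := B) (by
        rw [hB]
        exact h1)
    refine le_trans (le_of_eq ?_) h2
    exact Finset.sum_congr rfl fun y _ => by congr!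
  let _ := R.fin
  obtain ⟨y, hy⟩ := avg_exists (fun y : ((Fin 1 × Vr Q T b m' → Bool) ×
      (Fin 1 × (Fin (Q * m') → Fin (dom T b)))) × Bool =>
      ((∏ i, vp p (y.1.1 i)) * (1 / ((dom T b : ℕ) : ℝ) ^ (Q * m')) * (1 / 2)))
      (fun y => mul_nonneg (mul_nonneg
    (Finset.prod_nonneg fun i _ => vp_nonneg hp0 hp1 _) (by positivity)) (by norm_num)) (by
      rw [Fintype.sum_prod_type, Fintype.sum_prod_type]
      dsimp only
      simp_rw [Fintype.sum_bool]
      have hcard : ∑ _κ : Fin 1 × (Fin (Q * m') → Fin (dom T b)),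
          (1 / ((dom T b : ℕ) : ℝ) ^ (Q * m')) = 1 := by
        rw [Finset.sum_const, Finset.card_univ, Fintype.card_prod, Fintype.card_fun,
          Fintype.card_fin, Fintype.card_fin, Fintype.card_fin, nsmul_eq_mul, one_mul]
        push_cast
        field_simp
      have hμ1 : ∑ X : Fin 1 × Vr Q T b m' → Bool, ∏ i, vp p (X i) = 1 := by
        have := Ex_const (I := Fin 1 × Vr Q T b m') (vp_sum p) (1 : ℝ)
        unfold Ex at this
        simpa using this
      refine Eq.trans ?_ hμ1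
      refine Finset.sum_congr rfl fun X _ => ?_
      rw [Finset.sum_congr rfl fun κ _ => (show (∏ i, vp p (X i)) *
        (1 / ((dom T b : ℕ) : ℝ) ^ (Q * m')) * (1 / 2) + (∏ i, vp p (X i)) *
        (1 / ((dom T b : ℕ) : ℝ) ^ (Q * m')) * (1 / 2) = (∏ i, vp p (X i)) *
        (1 / ((dom T b : ℕ) : ℝ) ^ (Q * m')) by ring), ← Finset.mul_sum, hcard, mul_one])
    R.prob R.nonneg R.total
    (fun ω y => ((R.mach ω).answer T
          (σ' (if y.2 = true then plant (vi s y.1.2) univ y.1.1 else y.1.1)) = true) ↔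
        Sat s (fun v => (if y.2 = true then plant (vi s y.1.2) univ y.1.1 else y.1.1) (0, v)))
    (1 / 2 + (((dom T b : ℕ) : ℝ) ^ (Q * m') * p ^ (Q * m') +
        B / ((dom T b : ℕ) : ℝ) ^ (Q * m')) / 2)
    (fun ω => le_trans (le_of_eq (Finset.sum_congr rfl fun y _ => by congr!)) (hcore ω))
  refine ⟨fun v => (if y.2 = true then plant (vi s y.1.2) univ y.1.1 else y.1.1) (0, v), ?_⟩
  have h1 : R.success T (σ (fun v => (if y.2 = true then plant (vi s y.1.2) univ y.1.1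
      else y.1.1) (0, v))) (Sat s (fun v => (if y.2 = true then plant (vi s y.1.2) univ y.1.1
      else y.1.1) (0, v))) ≤
      1 / 2 + (((dom T b : ℕ) : ℝ) ^ (Q * m') * p ^ (Q * m') +
        B / ((dom T b : ℕ) : ℝ) ^ (Q * m')) / 2 := by
    rw [hσ'] at hy
    refine le_trans (le_of_eq ?_) hy
    unfold RandMachine.success
    exact Finset.sum_congr rfl fun ω _ => by congr!
  refine h1.trans ?_
  obtain ⟨E, hE⟩ : ∃ E : ℝ, E = (2 : ℝ) ^ (-((w : ℝ) / C)) := ⟨_, rfl⟩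
  have hE0 : 0 < E := by rw [hE]; positivity
  rw [← hE]
  have hwR : (w : ℝ) ≤ n := by exact_mod_cast hwn
  have h2 : (((dom T b : ℕ) : ℝ) ^ (Q * m') * p ^ (Q * m')) ≤ E := by
    have h3 := sat_arith Q (3 * T) b m' n ε' hexp
    have h3' : (((dom T b : ℕ) : ℝ)) ^ (Q * m') * p ^ (Q * m') ≤
      2 ^ (-((1 - ε') * n / 2)) := by rw [hp]; exact h3
    refine h3'.trans ?_
    rw [hE]
    apply Real.rpow_le_rpow_of_exponent_le (by norm_num)
    have h5 : (w : ℝ) / C ≤ n / 8 :=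
      (div_le_div_of_nonneg_right hwR hC0.le).trans
        (div_le_div_of_nonneg_left (by linarith) (by norm_num) hC8)
    nlinarith
  have hdt : 1 ≤ 3 * T * b := Nat.one_le_iff_ne_zero.2 (by positivity)
  have h4 : (4 : ℝ) ≤ 2 ^ ((3 * T * b : ℕ) / 2 : ℝ) := by
    have h5 : (2 : ℝ) ≤ (3 * T * b : ℕ) / 2 := by
      rw [le_div_iff₀ (by norm_num)]
      have : 4 ≤ 3 * T * b := by omega
      have h6 : ((4 : ℕ) : ℝ) ≤ ((3 * T * b : ℕ) : ℝ) := by exact_mod_cast this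
      push_cast at h6 ⊢
      linarith
    calc (4 : ℝ) = 2 ^ (2 : ℝ) := by norm_num
      _ ≤ 2 ^ ((3 * T * b : ℕ) / 2 : ℝ) := Real.rpow_le_rpow_of_exponent_le (by norm_num) h5
  have h5 : (2 : ℝ) ^ (3 * T * b) = 2 ^ ((3 * T * b : ℕ) / 2 : ℝ) * 2 ^ ((3 * T * b : ℕ) / 2 : ℝ) := by
    rw [← Real.rpow_add (by norm_num), add_halves, Real.rpow_natCast]
  have h6 : E = 1 / 2 ^ ((w : ℝ) / C) := by
    rw [hE, Real.rpow_neg (by norm_num), one_div]
  have h7 : (2 : ℝ) ^ ((w : ℝ) / C) ≤ 2 ^ ((3 * T * b : ℕ) / 2 : ℝ) := by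
    apply Real.rpow_le_rpow_of_exponent_le (by norm_num)
    rw [div_le_div_iff₀ hC0 (by norm_num)]
    have h8 : (w : ℝ) ≤ 8 * (2 * Q ^ 2 + 14 + 1) * (3 * T * b) := by
      have : ((w : ℕ) : ℝ) ≤ ((8 * ar Q * (3 * T * b) : ℕ) : ℝ) := by exact_mod_cast hwb
      unfold ar at this
      push_cast at this
      exact this
    have h9 : 16 * (2 * (Q : ℝ) ^ 2 + 14 + 1) * (3 * T * b) ≤ C * (3 * T * b) := by
      apply mul_le_mul_of_nonneg_right _ (by positivity)
      rw [hC]; linarith only [hC']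
    push_cast
    linarith only [h8, h9]
  have h8 : (3 : ℝ) / 2 ^ (3 * T * b) ≤ E := by
    rw [h6, h5, div_le_div_iff₀ (by positivity) (by positivity)]
    have h8 : (0 : ℝ) < 2 ^ ((3 * T * b : ℕ) / 2 : ℝ) := by positivity
    have h9 := mul_le_mul_of_nonneg_right h4 h8.le
    linarith only [h9, h7, h8]
  have h9 : B / ((dom T b : ℕ) : ℝ) ^ (Q * m') = 3 / 2 ^ (3 * T * b) := by
    rw [hB]
    field_simp
  rw [h9]
  linarith only [h2, h8, hE0]

end Pool.Agent.W964.Wd
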